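import Pool.Agent.Helper54.UN.St

/-!
# Project UN, part (C), module IOH: the two hexagons in the half plane

`hIOH : StIOH` of `Pool/Agent/Helper54/UN/St.lean`.
-/

set_option autoImplicit false

open Set Filter Topology

noncomputable section

namespace Pool.Agent.Helper13.UNC

open Pool.Agent.Helper71.UN Pool.Agent.Helper54.UN

private theorem xpos (s X Y : ℝ) (hs : 173 / 100 < s) (he : 0 < X + s * Y)
    (h6 : 0 ≤ s / 2 * (X + 1) - Y / 2) (hY : 0 ≤ Y) : 0 < X + 1 := by
  by_contra hX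
  push Not at hX
  have h1 : s * (X + 1) ≤ 0 := mul_nonpos_of_nonneg_of_nonpos (by linarith) hX
  have h2 : Y ≤ 0 := by linarith
  have h3 : Y = 0 := le_antisymm h2 hY
  rw [h3] at he
  linarith

private theorem pos5 (s a1 a2 X Y : ℝ) (hs : 173 / 100 < s)
    (ha1 : |a1 - 1 / 2| ≤ 1 / 50) (ha2 : |a2 - s / 2| ≤ 1 / 50)
    (he : 0 < X + s * Y) (h6 : 0 ≤ s / 2 * (X + 1) - Y / 2) :
    0 < (1 - a1) * Y + a2 * (X + 1) := by
  rw [abs_le] at ha1 ha2
  rcases le_or_gt 0 Y with hY | hY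
  · have hX := xpos s X Y hs he h6 hY
    have h1 : 0 ≤ (1 - a1) * Y := mul_nonneg (by linarith) hY
    have h2 : 0 < a2 * (X + 1) := mul_pos (by linarith) hX
    linarith
  · have h1 : 0 < a2 := by linarith
    have h2 : 0 < a2 * (X + s * Y) := mul_pos h1 he
    have h3 : 0 < (a2 * s - (1 - a1)) := by nlinarith
    have h4 : 0 < (a2 * s - (1 - a1)) * (-Y) := mul_pos h3 (by linarith)
    nlinarith

private theorem pos1 (s a1 a2 X Y : ℝ) (hs : 173 / 100 < s) (hss : s * s = 3)
    (ha1 : |a1 - 1 / 2| ≤ 1 / 50) (ha2 : |a2 - s / 2| ≤ 1 / 50)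
    (he : 0 < X + s * Y) (h6 : 0 ≤ s / 2 * (X + 1) - Y / 2) (h7 : 0 ≤ s / 2 * (1 - X) + Y / 2) :
    0 < (a1 + 1 / 2) * (Y + s / 2) - (a2 - s / 2) * (X - 1 / 2) := by
  rw [abs_le] at ha1
  have key : ∀ B : ℝ, |X - 1 / 2| ≤ B → (a2 - s / 2) * (X - 1 / 2) ≤ 1 / 50 * B := by
    intro B hB
    calc (a2 - s / 2) * (X - 1 / 2) ≤ |(a2 - s / 2) * (X - 1 / 2)| := le_abs_self _
      _ = |a2 - s / 2| * |X - 1 / 2| := abs_mul _ _
      _ ≤ 1 / 50 * B := mul_le_mul ha2 hB (abs_nonneg _) (by norm_num)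
  rcases le_or_gt 0 Y with hY | hY
  · have hX := xpos s X Y hs he h6 hY
    have h1 : |X - 1 / 2| ≤ 3 / 2 + Y := by
      rw [abs_le]
      constructor
      · linarith
      · by_contra h
        push Not at h
        have h2 : X - 1 > Y := by linarith
        have h3 : s * (X - 1) ≥ s * Y := mul_le_mul_of_nonneg_left h2.le (by linarith)
        have h4 : 173 / 100 * Y ≤ s * Y := mul_le_mul_of_nonneg_right hs.le hY
        have h5 : s * (X - 1) > s * (1 + Y) := mul_lt_mul_of_pos_left (by linarith) (by linarith)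
        nlinarith
    have h2 := key _ h1
    have h3 : 49 / 50 * (Y + s / 2) ≤ (a1 + 1 / 2) * (Y + s / 2) :=
      mul_le_mul_of_nonneg_right (by linarith) (by linarith)
    linarith
  · have hX0 : 0 < X := by
      have : 0 < s * (-Y) := mul_pos (by linarith) (by linarith)
      linarith
    have hX1 : X < 1 := by
      by_contra h
      push Not at h
      have : 0 ≤ s * (X - 1) := mul_nonneg (by linarith) (by linarith)
      linarith
    have hY1 : -(579 / 1000) < Y := by
      have h1 : s * (X + s * Y) = s * X + 3 * Y := by rw [mul_add, ← mul_assoc, hss]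
      have h2 : 0 < s * (X + s * Y) := mul_pos (by linarith) he
      by_contra h
      push Not at h
      have h3 : s * X < s * 1 := mul_lt_mul_of_pos_left hX1 (by linarith)
      have h4 : s < 1733 / 1000 := by
        by_contra h5
        push Not at h5
        nlinarith
      linarith
    have h1 : |X - 1 / 2| ≤ 1 / 2 := by
      rw [abs_le]
      constructor <;> linarith
    have h2 := key _ h1
    have h3 : 49 / 50 * (Y + s / 2) ≤ (a1 + 1 / 2) * (Y + s / 2) :=
      mul_le_mul_of_nonneg_right (by linarith) (by linarith)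
    linarith

private theorem e6 (x : ℂ) : lf om (-1) x = Real.sqrt 3 / 2 * (x.re + 1) - x.im / 2 := by
  rw [lf_eq, om_re, om_im]
  simp only [Complex.neg_re, Complex.neg_im, Complex.one_re, Complex.one_im]
  ring

private theorem e7 (x : ℂ) : lf (-om) 1 x = Real.sqrt 3 / 2 * (1 - x.re) + x.im / 2 := by
  rw [lf_eq]
  simp only [Complex.neg_re, Complex.neg_im, Complex.one_re, Complex.one_im, om_re, om_im]
  ring

private theorem e67 (x : ℂ) : lf om (-1) (-x) = lf (-om) 1 x := by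
  rw [e6, e7]
  simp only [Complex.neg_re, Complex.neg_im]
  ring

private theorem e5 (a x : ℂ) : lf 1 a (-x) = (1 - a.re) * x.im + a.im * (x.re + 1) := by
  rw [lf_eq]
  simp only [Complex.neg_re, Complex.neg_im, Complex.one_re, Complex.one_im]
  ring

private theorem e1 (a x : ℂ) : lf a om (-x) =
    (a.re + 1 / 2) * (x.im + Real.sqrt 3 / 2) - (a.im - Real.sqrt 3 / 2) * (x.re - 1 / 2) := by
  rw [lf_eq, om_re, om_im]
  simp only [Complex.neg_re, Complex.neg_im]
  ring

private theorem both (a x : ℂ) (h1 : |a.re - 1 / 2| ≤ 1 / 50)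
    (h2 : |a.im - Real.sqrt 3 / 2| ≤ 1 / 50) (he : 0 < el x) (h6 : 0 ≤ lf om (-1) x)
    (h7 : 0 ≤ lf (-om) 1 x) : 0 < lf 1 a (-x) ∧ 0 < lf a om (-x) := by
  rw [e6] at h6
  rw [e7] at h7
  rw [e5, e1]
  unfold el at he
  exact ⟨pos5 _ _ _ _ _ s3_gt h1 h2 he h6, pos1 _ _ _ _ _ s3_gt s3 h1 h2 he h6 h7⟩

theorem hIOH : StIOH := by
  intro a b τ g hG x hx
  refine ⟨?_, ?_⟩
  · unfold inH
    rw [e67]
    constructor
    · rintro ⟨⟨h5, h1, h6⟩, -, -, h7⟩
      exact ⟨h5, h1, h6, h7⟩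
    · rintro ⟨h5, h1, h6, h7⟩
      obtain ⟨h8, h9⟩ := both a x hG.na1 hG.na2 hx h6.le h7.le
      exact ⟨⟨h5, h1, h6⟩, h8, h9, h7⟩
  · unfold ouH
    rw [e67]
    constructor
    · intro h
      by_contra hc
      push Not at hc
      obtain ⟨h4, h2, h6, h7⟩ := hc
      obtain ⟨h8, h9⟩ := both b x hG.nb1 hG.nb2 hx h6 h7
      rcases h with (h | h | h) | (h | h | h) <;> linarith
    · rintro (h | h | h | h)
      · exact Or.inl (Or.inl h)
      · exact Or.inl (Or.inr (Or.inl h))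
      · exact Or.inl (Or.inr (Or.inr h))
      · exact Or.inr (Or.inr (Or.inr h))

end Pool.Agent.Helper13.UNC
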